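import Mathlib
import Pool.Agent.H422IV.HFFinal

/-!
# MP_3fa020_gt: intrinsic volumes of closed hypersurfaces

For all `n ≥ 2`, `D` and `κ` there is a constant `C = C(n, D, κ)` such that every compact
connected smooth hypersurface `M` of `ℝ^{n+1}` with diameter at most `D` and sectional
curvatures at least `κ` satisfies `|V_i(M)| ≤ C (1 + V_n(M))` for all `i = 0, …, n`. Nothing
else is assumed on `M`: the size of the charts, the second fundamental form, the injectivity
radius and the volume are not restricted.
-/

set_option autoImplicit false

namespace Pool.Agent.Results.MP_3fa020_gt.ClosedHypersurfaces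

open Pool.Agent.H422IV

/-- Bounds for all the intrinsic volumes of closed hypersurfaces with sectional curvature bounded
below, in terms of the dimension, the diameter, the curvature bound and the volume `V n`. -/
theorem result (n : ℕ) (hn : 2 ≤ n) (D κ : ℝ) :
    ∃ C : ℝ, ∀ M : Set (E (n + 1)), ClosedHypersurface κ M →
      (∀ x ∈ M, ∀ y ∈ M, dist x y ≤ D) →
      (∃ V : ℕ → ℝ, TubeFormula M V) ∧
      ∀ V : ℕ → ℝ, TubeFormula M V → ∀ i ≤ n, |V i| ≤ C * (1 + V n) :=
  hypersurface_bound n hn D κ

end Pool.Agent.Results.MP_3fa020_gt.ClosedHypersurfaces
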